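import Pool.Agent.AT8.Stmts2

/-! # AT8, row CSQ -/

open scoped BigOperators

noncomputable section

namespace Pool.Agent.PP.T8.H2

open Pool.Agent.Helper51_AWC Pool.Agent.Helper79_WRA Pool.Agent.PP Pool.Agent.PP.KF
open Pool.Agent.PP.K9 Pool.Agent.PP.K9.H97 Pool.Agent.PP.H75 Pool.Agent.PP.T3 Pool.Agent.PP.T2

attribute [local instance] Ideal.Quotient.field

theorem csq (hFry : FryStmt) (hOri : OriStmt) (hFch : FchStmt) (hDor : DorStmt)
    (hDpw : DpwStmt) : CsqStmt := by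
  classical
  intro ℓ _ M _ hℓ hℓ2 G _ _ e V γ b d c ε hD i hi
  have hab := hD.ld.ab
  have hGf : Fintype G := Fintype.ofFinite _
  have hr : ∀ u, ∃ r : ℤ, Rg V γ u → (∀ χ ∈ Irr G, fv i u χ = r * vv M b d u χ) ∧
      ∀ κ ∈ IrrE M (fun t : Subgroup.centralizer (V : Set G) => γ t),
        ((r * ε u : ℤ) : FF M) = rr M (∑ᶠ t : Subgroup.centralizer (V : Set G), i t * κ t) := by
    intro u
    by_cases h : Rg V γ u
    · obtain ⟨r, h1, h2⟩ := hFry ℓ M hℓ G e V γ b d c ε hD i hi u h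
      exact ⟨r, fun _ => ⟨h1, h2⟩⟩
    · exact ⟨0, fun h' => absurd h' h⟩
  choose r hr using hr
  obtain ⟨hconj, -, -⟩ := hDpw ℓ M hℓ hℓ2 G e V γ b d c ε hD
  let Q := Tg V γ ⧸ (Subgroup.centralizer (V : Set G)).subgroupOf (Tg V γ)
  have hQf : Fintype Q := Fintype.ofFinite _
  have hix : (ix V γ : ℕ) = Fintype.card Q := by
    rw [← Nat.card_eq_fintype_card]
    rfl
  let cq : Q → G → G := fun q z => ((q.out : Tg V γ) : G) * z * ((q.out : Tg V γ) : G)⁻¹
  have hcq : ∀ q u, Rg V γ u → Rg V γ (cq q u) ∧ ε (cq q u) = ε u ∧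
      ∀ χ ∈ Irr G, vv M b d (cq q u) χ = vv M b d u χ := fun q u hu =>
    hconj _ (q.out : Tg V γ).2 u hu
  have hfs : ∀ z χ, fs V γ i z χ = ∑ q : Q, fv i (cq q z) χ := fun z χ =>
    finsum_eq_sum_of_fintype _
  have hVf : Fintype V := Fintype.ofFinite _
  have hcV : ((Nat.card V : ℕ) : ℂ) ≠ 0 := Nat.cast_ne_zero.2 Nat.card_pos.ne'
  -- conjugation with an element of the inertial group permutes `V`
  have hperm : ∀ (q : Q) (F : G → ℂ), ∑ v : V, F (cq q v) = ∑ v : V, F v := by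
    intro q F
    have hn : ((q.out : Tg V γ) : G) ∈ Subgroup.normalizer (V : Set G) := (q.out : Tg V γ).2.1
    let f : V → V := fun v => ⟨cq q v, (Subgroup.mem_normalizer_iff.1 hn v).1 v.2⟩
    have hf : Function.Injective f := by
      intro v w h
      have h1 : cq q v = cq q w := congrArg Subtype.val h
      exact Subtype.ext (mul_left_cancel (mul_right_cancel h1))
    exact Fintype.sum_bijective f (Finite.injective_iff_bijective.1 hf) _ _ fun v => rfl
  -- the multiplicity of the trivial character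
  have hA : ∀ χ ∈ Irr G, ∃ m : ℕ, ∑ v : V, fv i v χ = Nat.card V * (m : ℂ) := by
    intro χ hχ
    obtain ⟨m, hm⟩ := hFch M G V hab i hi.ip χ hχ 1
    refine ⟨m, ?_⟩
    rw [← hm, mul_inv_cancel_left₀ hcV, finsum_eq_sum_of_fintype]
    exact Finset.sum_congr rfl fun v _ => by rw [MonoidHom.one_apply, mul_one]
  choose! m hm using hA
  have hF1 : ∀ χ ∈ Irr G, (Nat.card V : ℂ)⁻¹ * ∑ᶠ v : V, fs V γ i v χ = ix V γ * (m χ : ℂ) := by
    intro χ hχ
    rw [finsum_eq_sum_of_fintype]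
    have h1 : ∑ v : V, fs V γ i v χ = ∑ q : Q, ∑ v : V, fv i (cq q v) χ := by
      rw [Finset.sum_comm]
      exact Finset.sum_congr rfl fun v _ => hfs _ _
    rw [h1]
    have h2 : ∀ q : Q, ∑ v : V, fv i (cq q v) χ = Nat.card V * (m χ : ℂ) := fun q => by
      rw [hperm q (fun z => fv i z χ)]
      exact hm χ hχ
    rw [Finset.sum_congr rfl fun q _ => h2 q, Finset.sum_const, Finset.card_univ, ← hix,
      nsmul_eq_mul]
    field_simp
  refine ⟨fun u => ∑ q : Q, r (cq q u), fun u hu => ?_⟩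
  have hR1 : ∀ χ ∈ Irr G, fs V γ i u χ = ((∑ q : Q, r (cq q u) : ℤ) : ℂ) * vv M b d u χ := by
    intro χ hχ
    rw [hfs, Int.cast_sum, Finset.sum_mul]
    refine Finset.sum_congr rfl fun q _ => ?_
    obtain ⟨h1, -, h3⟩ := hcq q u hu
    rw [(hr _ h1).1 χ hχ, h3 χ hχ]
  refine ⟨hR1, fun κ hκ => ?_, ?_⟩
  · have h1 : (((∑ q : Q, r (cq q u)) * ε u : ℤ) : FF M) =
        ∑ q : Q, ((r (cq q u) * ε (cq q u) : ℤ) : FF M) := by
      rw [Finset.sum_mul, Int.cast_sum]
      refine Finset.sum_congr rfl fun q _ => ?_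
      rw [(hcq q u hu).2.1]
    rw [h1, Finset.sum_congr rfl fun q _ => (hr _ (hcq q u hu).1).2 κ hκ, Finset.sum_const,
      Finset.card_univ, ← hix, nsmul_eq_mul]
  -- the sum over `V`
  · let S : G → ℂ := fun z => ∑ χ ∈ irr_finite'.toFinset, fv i z χ * starRingEnd ℂ (vv M b d u χ)
    have hS : ∀ z, S z = ∑ᶠ χ ∈ Irr G, fv i z χ * starRingEnd ℂ (vv M b d u χ) := fun z =>
      (finsum_mem_eq_finite_toFinset_sum _ irr_finite').symm
    have hmem : ∀ χ, χ ∈ (irr_finite' (G := G)).toFinset ↔ χ ∈ Irr G := fun χ =>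
      Set.Finite.mem_toFinset _
    have hcqV : ∀ q : Q, cq q u ∈ V := fun q => (hcq q u hu).1.1
    have hinj : Function.Injective fun q : Q => cq q u := by
      intro q q' h
      have h1 : ((q'.out : Tg V γ) : G)⁻¹ * ((q.out : Tg V γ) : G) * u =
          u * (((q'.out : Tg V γ) : G)⁻¹ * ((q.out : Tg V γ) : G)) := by
        have h2 : ((q.out : Tg V γ) : G) * u * ((q.out : Tg V γ) : G)⁻¹ =
          ((q'.out : Tg V γ) : G) * u * ((q'.out : Tg V γ) : G)⁻¹ := h
        calc ((q'.out : Tg V γ) : G)⁻¹ * ((q.out : Tg V γ) : G) * u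
            = ((q'.out : Tg V γ) : G)⁻¹ * (((q.out : Tg V γ) : G) * u *
                ((q.out : Tg V γ) : G)⁻¹) * ((q.out : Tg V γ) : G) := by group
          _ = _ := by rw [h2]; group
      have h3 : ((q'.out : Tg V γ) : G)⁻¹ * ((q.out : Tg V γ) : G) ∈
          Subgroup.centralizer (V : Set G) := by
        refine hu.2.2 ⟨(Tg V γ).mul_mem ((Tg V γ).inv_mem (q'.out : Tg V γ).2)
          (q.out : Tg V γ).2, ?_⟩
        refine Subgroup.mem_centralizer_iff.2 ?_
        rintro x hx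
        rw [Set.mem_singleton_iff.1 hx]
        exact h1.symm
      have h4 : (QuotientGroup.mk (q'.out : Tg V γ) : Q) = QuotientGroup.mk (q.out : Tg V γ) :=
        QuotientGroup.eq.2 h3
      have h5 := q.out_eq'
      have h6 := q'.out_eq'
      exact h5.symm.trans (h4.symm.trans h6)
    -- only the conjugates of `u` contribute
    have hzero : ∀ z : V, (∀ q : Q, cq q u ≠ z) → S z = 0 := by
      intro z hz
      rw [hS]
      refine hOri ℓ M hℓ G e V γ b d c ε hD i hi u hu z z.2 fun t ht h => ?_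
      let q : Q := QuotientGroup.mk ⟨t, ht⟩
      refine hz q ?_
      have h1 : (QuotientGroup.mk (q.out : Tg V γ) : Q) = QuotientGroup.mk ⟨t, ht⟩ := q.out_eq'
      have h2 : ((q.out : Tg V γ) : G)⁻¹ * t ∈ Subgroup.centralizer (V : Set G) :=
        (QuotientGroup.eq (a := (q.out : Tg V γ)) (b := ⟨t, ht⟩)).1 h1
      have h3 := Subgroup.mem_centralizer_iff.1 h2 u hu.1
      change ((q.out : Tg V γ) : G) * u * ((q.out : Tg V γ) : G)⁻¹ = z
      rw [← h]
      calc ((q.out : Tg V γ) : G) * u * ((q.out : Tg V γ) : G)⁻¹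
          = ((q.out : Tg V γ) : G) * (u * (((q.out : Tg V γ) : G)⁻¹ * t)) * t⁻¹ := by group
        _ = _ := by rw [h3]; group
    have hval : ∀ q : Q, S (cq q u) = r (cq q u) * Nat.card V := by
      intro q
      obtain ⟨h1, -, h3⟩ := hcq q u hu
      have h4 := (hDor ℓ M hℓ G e V γ b d c ε hD u u hu hu).1
        ⟨1, (Tg V γ).one_mem, by rw [one_mul, inv_one, mul_one]⟩
      rw [finsum_mem_eq_finite_toFinset_sum _ irr_finite'] at h4
      rw [← h4, Finset.mul_sum]
      refine Finset.sum_congr rfl fun χ hχ => ?_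
      rw [(hr _ h1).1 χ ((hmem χ).1 hχ), h3 χ ((hmem χ).1 hχ)]
      ring
    have hsum : ∑ v : V, S v = ((∑ q : Q, r (cq q u) : ℤ) : ℂ) * Nat.card V := by
      have h1 : ∑ v : V, S v = ∑ v ∈ Finset.univ.image (fun q : Q => (⟨cq q u, hcqV q⟩ : V)),
          S v := by
        symm
        refine Finset.sum_subset (Finset.subset_univ _) fun v _ hv => hzero v fun q hq => hv ?_
        rw [Finset.mem_image]
        exact ⟨q, Finset.mem_univ _, Subtype.ext hq⟩
      rw [h1, Finset.sum_image fun q _ q' _ h => hinj (congrArg Subtype.val h), Int.cast_sum,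
        Finset.sum_mul]
      exact Finset.sum_congr rfl fun q _ => hval q
    have hsum2 : ∑ v : V, S v = ∑ χ ∈ irr_finite'.toFinset,
        Nat.card V * (m χ : ℂ) * starRingEnd ℂ (vv M b d u χ) := by
      change ∑ v : V, ∑ χ ∈ irr_finite'.toFinset, _ = _
      rw [Finset.sum_comm]
      refine Finset.sum_congr rfl fun χ hχ => ?_
      rw [← Finset.sum_mul, hm χ ((hmem χ).1 hχ)]
    have hstar : ∑ χ ∈ irr_finite'.toFinset, (m χ : ℂ) * vv M b d u χ =
        ((∑ q : Q, r (cq q u) : ℤ) : ℂ) := by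
      have h1 : (Nat.card V : ℂ) * ∑ χ ∈ irr_finite'.toFinset,
          (m χ : ℂ) * starRingEnd ℂ (vv M b d u χ) =
          (Nat.card V : ℂ) * ((∑ q : Q, r (cq q u) : ℤ) : ℂ) := by
        rw [Finset.mul_sum, mul_comm (Nat.card V : ℂ) (((∑ q : Q, r (cq q u) : ℤ) : ℂ)), ← hsum,
          hsum2]
        exact Finset.sum_congr rfl fun χ _ => (mul_assoc _ _ _).symm
      have h2 := congrArg (starRingEnd ℂ) (mul_left_cancel₀ hcV h1)
      rw [map_sum, map_intCast] at h2
      rw [← h2]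
      refine Finset.sum_congr rfl fun χ _ => ?_
      rw [map_mul, map_natCast, Complex.conj_conj]
    unfold cc
    rw [finsum_mem_eq_finite_toFinset_sum _ irr_finite']
    have h5 : ∀ χ ∈ (irr_finite' (G := G)).toFinset,
        ((Nat.card V : ℂ)⁻¹ * ∑ᶠ v : V, fs V γ i v χ) * fs V γ i u χ =
        ix V γ * ((∑ q : Q, r (cq q u) : ℤ) : ℂ) * ((m χ : ℂ) * vv M b d u χ) := by
      intro χ hχ
      rw [hF1 χ ((hmem χ).1 hχ), hR1 χ ((hmem χ).1 hχ)]
      ring
    rw [Finset.sum_congr rfl h5, ← Finset.mul_sum, hstar]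
    ring

end Pool.Agent.PP.T8.H2
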